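import Pool.Agent.X77.RK.Main

/-!
# MP_4400a6_co: the manipulability of Randomized King of the Hill on near-uniform tournaments

For every `ε ∈ [0, 1/2]` the largest joint gain of two teams in Randomized King of the Hill, over all
probabilistic tournaments with all winning probabilities in `[1/2 - ε, 1/2 + ε]`, is
`ε / 3 + 2 ε² / 3`. So Q1 has the answer yes.

Proof. Let `x = 1/2 + ε`, `ρ = 2 ε`, let `u`, `v` be the two teams, `a_w`, `b_w` the probabilities
that they beat `w`, and let `D(M)` be the derivative of the probability that `u` or `v` is selected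
with respect to the probability that `u` beats `v`, when `u`, `v` and the teams of `M` remain. The
first round gives `(|M| + 2) D(M) = Δ(M) + ∑_w a_w b_w E D(M_w)`, where `M_w` is the random set of
the teams of `M` which beat `w` and `Δ(M) = F(a, b) - F(b, a)`, `F(a, b)` being the probability that
`u` is selected if `v` is the first king and loses to some team of `M`. Exchanging `a_w` and `b_w`
for one team after the other shows
`|Δ(M)| ≤ |∏ a_w - ∏ b_w| + ∑_w |a_w - b_w| (1 - x (1 - x)) / 3 P (some team of M - w beats u and v)`,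
because an additional team which loses to `u` changes the probability that `u` is selected
by at most `(1 - x (1 - x)) / 3`, given the results of `u` (`gam_bound`). This implies
`|Δ(M)| ≤ (ρ / 3) (2 + ∑_w (1 - a_w b_w))` if `|M| ≥ 2`, and `|D(M)| ≤ ρ / 3` follows by induction.
-/

set_option autoImplicit false

namespace Pool.Agent.Results.MP_4400a6_co.ExactManipulability

open Finset Pool.Agent.X77.RK

/-- A probabilistic tournament on `n` teams: `T i j` is the probability that `i` beats `j`; the
diagonal entries, which have no meaning, are `0`. -/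
def IsTournament {n : ℕ} (T : Fin n → Fin n → ℝ) : Prop :=
  (∀ i, T i i = 0) ∧ ∀ i j, i ≠ j → 0 ≤ T i j ∧ T i j + T j i = 1

/-- All winning probabilities are in `[1/2 - ε, 1/2 + ε]`. -/
def Near {n : ℕ} (ε : ℝ) (T : Fin n → Fin n → ℝ) : Prop :=
  ∀ i j, i ≠ j → 1 / 2 - ε ≤ T i j ∧ T i j ≤ 1 / 2 + ε

/-- `T'` and `T` differ at most in the match of `u` and `v`. -/
def Adjacent {n : ℕ} (u v : Fin n) (T T' : Fin n → Fin n → ℝ) : Prop :=
  ∀ i j, ¬ (i = u ∧ j = v) → ¬ (i = v ∧ j = u) → T' i j = T i j

/-- The probability that `i` is selected by Randomized King of the Hill (`win`), starting from all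
`n` teams; `n` rounds suffice. -/
noncomputable def sel {n : ℕ} (T : Fin n → Fin n → ℝ) (i : Fin n) : ℝ := win T n univ i

/-- The joint gains of two teams `u`, `v` when the result of their match is changed, for tournaments
with all winning probabilities in `[1/2 - ε, 1/2 + ε]`. -/
def gains (ε : ℝ) : Set ℝ :=
  {g | ∃ (n : ℕ) (T T' : Fin n → Fin n → ℝ) (u v : Fin n), u ≠ v ∧ IsTournament T ∧ Near ε T ∧
    IsTournament T' ∧ Adjacent u v T T' ∧ g = sel T' u + sel T' v - sel T u - sel T v}

theorem setm_eq {n : ℕ} {T T' : Fin n → Fin n → ℝ} {u v : Fin n} (huv : u ≠ v)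
    (hT' : IsTournament T') (h : Adjacent u v T T') : setm T u v (T' u v) = T' := by
  funext i j
  unfold setm
  by_cases h1 : i = u ∧ j = v
  · rw [if_pos h1, h1.1, h1.2]
  · rw [if_neg h1]
    by_cases h2 : i = v ∧ j = u
    · rw [if_pos h2, h2.1, h2.2]
      have := (hT'.2 u v huv).2
      linarith
    · rw [if_neg h2]
      exact (h i j h1 h2).symm

theorem gain_eq {n : ℕ} {T T' : Fin n → Fin n → ℝ} {u v : Fin n} (huv : u ≠ v)
    (hT : IsTournament T) (hT' : IsTournament T') (h : Adjacent u v T T') :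
    sel T' u + sel T' v - sel T u - sel T v
      = (T' u v - T u v) * DD T u v ((univ.erase u).erase v) := by
  have hs : ∀ i j, i ≠ j → T i j + T j i = 1 := fun i j hij => (hT.2 i j hij).2
  have hu : u ∉ (univ.erase u).erase v := by simp
  have hv : v ∉ (univ.erase u).erase v := by simp
  have huniv : insert u (insert v ((univ.erase u).erase v)) = (univ : Finset (Fin n)) := by
    rw [Finset.insert_erase (Finset.mem_erase.2 ⟨huv.symm, Finset.mem_univ v⟩),
      Finset.insert_erase (Finset.mem_univ u)]
  have hsel : ∀ (S : Fin n → Fin n → ℝ) (i : Fin n), sel S i = W S univ i := by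
    intro S i
    rw [sel, W, Finset.card_univ, Fintype.card_fin]
  have h1 : ∀ S : Fin n → Fin n → ℝ, IsTournament S → Adjacent u v T S →
      sel S u + sel S v = SS T u v (S u v) ((univ.erase u).erase v) := by
    intro S hS hTS
    rw [SS, huniv, setm_eq huv hS hTS, hsel, hsel]
  have h2 := h1 T' hT' h
  have h3 := h1 T hT (fun _ _ _ _ => rfl)
  have h4 := SS_affine hs huv (T' u v) _ hu hv
  have h5 := SS_affine hs huv (T u v) _ hu hv
  rw [h4] at h2
  rw [h5] at h3
  linarith

/-- For every `ε ∈ [0, 1/2]`, the largest element of `gains ε` is `ε / 3 + 2 ε² / 3`. -/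
theorem result : ∀ ε : ℝ, 0 ≤ ε → ε ≤ 1 / 2 → IsGreatest (gains ε) (ε / 3 + 2 * ε ^ 2 / 3) := by
  intro ε h0 h1
  constructor
  · -- the value is attained by three teams
    have hTour : IsTournament (n := 3) (fun i j =>
        (!![0, 1 / 2 - ε, 1 / 2 + ε; 1 / 2 + ε, 0, 1 / 2 - ε; 1 / 2 - ε, 1 / 2 + ε, 0] :
          Matrix (Fin 3) (Fin 3) ℝ) i j) := by
      refine ⟨fun i => ?_, fun i j hij => ?_⟩
      · fin_cases i <;> simp
      · fin_cases i <;> fin_cases j <;> simp at hij ⊢ <;> constructor <;> linarith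
    have hNear : Near (n := 3) ε (fun i j =>
        (!![0, 1 / 2 - ε, 1 / 2 + ε; 1 / 2 + ε, 0, 1 / 2 - ε; 1 / 2 - ε, 1 / 2 + ε, 0] :
          Matrix (Fin 3) (Fin 3) ℝ) i j) := by
      intro i j hij
      fin_cases i <;> fin_cases j <;> simp at hij ⊢ <;> linarith
    have hTour' : IsTournament (n := 3) (fun i j =>
        (!![0, 1, 1 / 2 + ε; 0, 0, 1 / 2 - ε; 1 / 2 - ε, 1 / 2 + ε, 0] :
          Matrix (Fin 3) (Fin 3) ℝ) i j) := by
      refine ⟨fun i => ?_, fun i j hij => ?_⟩
      · fin_cases i <;> simp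
      · fin_cases i <;> fin_cases j <;> simp at hij ⊢ <;> constructor <;> linarith
    have hAdj : Adjacent (n := 3) 0 1 (fun i j =>
        (!![0, 1 / 2 - ε, 1 / 2 + ε; 1 / 2 + ε, 0, 1 / 2 - ε; 1 / 2 - ε, 1 / 2 + ε, 0] :
          Matrix (Fin 3) (Fin 3) ℝ) i j) (fun i j =>
        (!![0, 1, 1 / 2 + ε; 0, 0, 1 / 2 - ε; 1 / 2 - ε, 1 / 2 + ε, 0] :
          Matrix (Fin 3) (Fin 3) ℝ) i j) := by
      intro i j h1 h2
      fin_cases i <;> fin_cases j <;> simp at h1 h2 ⊢
    refine ⟨3, _, _, 0, 1, by decide, hTour, hNear, hTour', hAdj, ?_⟩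
    rw [gain_eq (by decide) hTour hTour' hAdj]
    have hM : ((univ : Finset (Fin 3)).erase 0).erase 1 = {2} := by decide
    rw [hM]
    have hD := (DD_bound (x := 1 / 2 + ε) (by linarith) (by linarith)
      (fun i j hij => (hNear i j hij).2) (fun i j hij => (hTour.2 i j hij).2)
      (u := 0) (v := 1) (by decide) {2} (by decide) (by decide)).2.2 2 rfl
    rw [hD]
    simp
    ring
  · rintro g ⟨n, T, T', u, v, huv, hT, hN, hT', hA, rfl⟩
    rw [gain_eq huv hT hT' hA]
    have hu : u ∉ ((univ : Finset (Fin n)).erase u).erase v := by simp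
    have hv : v ∉ ((univ : Finset (Fin n)).erase u).erase v := by simp
    have hD := (DD_bound (p := T) (x := 1 / 2 + ε) (by linarith) (by linarith)
      (fun i j hij => (hN i j hij).2) (fun i j hij => (hT.2 i j hij).2) huv _ hu hv).1
    have e1 := hN u v huv
    have e2 := hT'.2 u v huv
    have e3 := hT'.2 v u huv.symm
    have e4 : |T' u v - T u v| ≤ 1 / 2 + ε := by
      rw [abs_le]
      constructor <;> linarith [e2.1, e2.2, e3.1]
    refine (le_abs_self _).trans ?_
    rw [abs_mul]
    refine (mul_le_mul e4 hD (abs_nonneg _) (by linarith)).trans (le_of_eq ?_)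
    ring

end Pool.Agent.Results.MP_4400a6_co.ExactManipulability
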